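import Pool.Agent.W680.WH.Stm

set_option autoImplicit false

open scoped ComplexConjugate InnerProductSpace

namespace Pool.Agent.W381.WH

open Pool.Agent.W680.WH

lemma jj_apply (f : E) (n : ℤ) : jj f n = conj (f (-n)) := rfl

lemma E_ext {f g : E} (h : ∀ n, f n = g n) : f = g := by
  ext n; exact h n

lemma Z_apply (f : E) (n : ℤ) :
    Z f n = ((Real.sqrt (om n / om (n - 1)) : ℝ) : ℂ) * f (n - 1) := rfl
lemma Zi_apply (f : E) (n : ℤ) :
    Zi f n = ((Real.sqrt (om n / om (n + 1)) : ℝ) : ℂ) * f (n - (-1)) := rfl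
lemma Zs_apply (f : E) (n : ℤ) :
    Zs f n = ((Real.sqrt (om (n + 1) / om n) : ℝ) : ℂ) * f (n - (-1)) := rfl
lemma Z2_apply (f : E) (n : ℤ) :
    Z2 f n = ((Real.sqrt (om (n - 1) / om n) : ℝ) : ℂ) * f (n - 1) := rfl
lemma R_apply (k : Circle) (f : E) (n : ℤ) :
    R k f n = ((k ^ n : Circle) : ℂ) * f (n - 0) := rfl

theorem opj : S_OPJ := by
  have n1 : ∀ n : ℤ, -n - 1 = -(n + 1) := fun n => by ring
  have n2 : ∀ n : ℤ, -n + 1 = -(n - 1) := fun n => by ring
  have n3 : ∀ n : ℤ, n - (-1) = n + 1 := fun n => by ring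
  refine ⟨fun f => E_ext fun n => ?_, fun f => E_ext fun n => ?_, fun f => E_ext fun n => ?_,
    fun f => E_ext fun n => ?_, fun k f => E_ext fun n => ?_, fun f => E_ext fun n => ?_,
    fun f g => E_ext fun n => ?_, fun c f => E_ext fun n => ?_, fun f => ?_, fun f g => ?_,
    fun n => E_ext fun m => ?_, fun f n => ?_⟩
  · rw [jj_apply, Z_apply, Zi_apply, jj_apply, map_mul, Complex.conj_ofReal, n1, n3, om_neg, om_neg]
  · rw [jj_apply, Z2_apply, Zs_apply, jj_apply, map_mul, Complex.conj_ofReal, n1, n3, om_neg,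
      om_neg]
  · rw [jj_apply, Zi_apply, Z_apply, jj_apply, map_mul, Complex.conj_ofReal, n3, n2, om_neg, om_neg]
  · rw [jj_apply, Zs_apply, Z2_apply, jj_apply, map_mul, Complex.conj_ofReal, n3, n2, om_neg,
      om_neg]
  · rw [jj_apply, R_apply, R_apply, jj_apply, map_mul, sub_zero, sub_zero]
    congr 1
    rw [zpow_neg, ← Circle.coe_inv_eq_conj, inv_inv]
  · rw [jj_apply, jj_apply, neg_neg, Complex.conj_conj]
  · change conj (f (-n) + g (-n)) = conj (f (-n)) + conj (g (-n))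
    rw [map_add]
  · change conj (c * f (-n)) = conj c * conj (f (-n))
    rw [map_mul]
  · have h1 : ‖jj f‖ ^ 2 = ‖f‖ ^ 2 := by
      rw [E_norm_sq, E_norm_sq, ← (Equiv.neg ℤ).tsum_eq (fun n => ‖f n‖ ^ 2)]
      refine tsum_congr fun n => ?_
      rw [jj_apply, RCLike.norm_conj]
      rfl
    exact (sq_eq_sq₀ (norm_nonneg _) (norm_nonneg _)).1 h1
  · have h1 : ∑' n, ⟪f n, g n⟫_ℂ = ⟪f, g⟫_ℂ := (lp.hasSum_inner f g).tsum_eq
    have h2 : ∑' n, ⟪jj f n, jj g n⟫_ℂ = ⟪jj f, jj g⟫_ℂ :=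
      (lp.hasSum_inner (jj f) (jj g)).tsum_eq
    rw [← h1, ← h2, RCLike.conj_tsum, ← (Equiv.neg ℤ).tsum_eq (fun n => conj ⟪f n, g n⟫_ℂ)]
    refine tsum_congr fun n => ?_
    change ⟪jj f n, jj g n⟫_ℂ = conj ⟪f (-n), g (-n)⟫_ℂ
    rw [jj_apply, jj_apply, RCLike.inner_apply, RCLike.inner_apply, map_mul]
  · rw [jj_apply]
    unfold eb
    by_cases h : -m = n
    · subst h
      rw [neg_neg, om_neg]
      simp
    · have h' : m ≠ -n := fun h2 => h (by rw [h2, neg_neg])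
      rw [lp.single_apply_ne _ _ _ h, lp.single_apply_ne _ _ _ h', map_zero]
  · unfold co
    rw [jj_apply, map_div₀, Complex.conj_ofReal, om_neg]

end Pool.Agent.W381.WH
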